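import Pool.Agent.H586.AF.C

/-!
# Task AF-DP (derivative of the coordinate fields), for helper586; by helper658
-/

set_option autoImplicit false

open MeasureTheory Matrix Finset Filter Topology Pool.Agent.H586.AF
open scoped Quaternion

namespace Pool.Agent.H658.AF

noncomputable section

/-- the component of the imaginary part -/
def cmp (b : Fin 3) (q : ℍ[ℝ]) : ℝ := if b = 0 then q.imI else if b = 1 then q.imJ else q.imK

lemma ph_eq (b : Fin 3) (q : ℍ[ℝ]) : ph b q = Real.sqrt 2 * cmp b q := rfl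

lemma norm_sq (q : ℍ[ℝ]) : ‖q‖ ^ 2 = q.re ^ 2 + q.imI ^ 2 + q.imJ ^ 2 + q.imK ^ 2 := by
  rw [sq, ← Quaternion.normSq_eq_norm_mul_self, Quaternion.normSq_def']

lemma abs_cmp_le (b : Fin 3) (q : ℍ[ℝ]) : |cmp b q| ≤ ‖q‖ := by
  apply abs_le_of_sq_le_sq _ (norm_nonneg q)
  rw [norm_sq]
  unfold cmp
  split_ifs
  · nlinarith [sq_nonneg q.re, sq_nonneg q.imJ, sq_nonneg q.imK]
  · nlinarith [sq_nonneg q.re, sq_nonneg q.imI, sq_nonneg q.imK]
  · nlinarith [sq_nonneg q.re, sq_nonneg q.imI, sq_nonneg q.imJ]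

lemma cmp_add (b : Fin 3) (p q : ℍ[ℝ]) : cmp b (p + q) = cmp b p + cmp b q := by
  unfold cmp
  split_ifs <;> simp

lemma cmp_smul (b : Fin 3) (c : ℝ) (q : ℍ[ℝ]) : cmp b (c • q) = c * cmp b q := by
  unfold cmp
  split_ifs <;> simp

lemma cmp_one (b : Fin 3) : cmp b (1 : ℍ[ℝ]) = 0 := by
  unfold cmp
  split_ifs <;> simp

lemma cmp_sub_one (b : Fin 3) (q : ℍ[ℝ]) : cmp b (q - 1) = cmp b q := by
  have h := cmp_add b (q - 1) 1
  rw [sub_add_cancel, cmp_one, add_zero] at h
  exact h.symm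

lemma continuous_cmp (b : Fin 3) : Continuous (cmp b) := by
  unfold cmp
  split_ifs
  · exact Quaternion.continuous_imI
  · exact Quaternion.continuous_imJ
  · exact Quaternion.continuous_imK

lemma cmp_un (a b : Fin 3) : cmp b (un a) = if a = b then 1 else 0 := by
  fin_cases a <;> fin_cases b <;> simp [cmp, un]

lemma norm_un (a : Fin 3) : ‖un a‖ = 1 := by
  have h : ‖un a‖ ^ 2 = 1 := by
    rw [norm_sq]
    fin_cases a <;> simp [un]
  nlinarith [norm_nonneg (un a)]

lemma norm_gq (a : Fin 3) (t : ℝ) : ‖gq a t‖ = 1 := by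
  have h : ‖gq a t‖ ^ 2 = 1 := by
    rw [norm_sq]
    fin_cases a <;> simp [gq, un]
  nlinarith [norm_nonneg (gq a t)]

lemma coe_gm (a : Fin 3) (t : ℝ) : ((gm a t : SU) : ℍ[ℝ]) = gq a t := by
  unfold gm
  rw [dif_pos (norm_gq a t)]

/-- the field along the one-parameter group -/
lemma ph_gq (a b : Fin 3) (t : ℝ) (q : ℍ[ℝ]) : ph b (gq a t * q) =
    Real.sqrt 2 * (Real.cos (t / Real.sqrt 2) * cmp b q +
      Real.sin (t / Real.sqrt 2) * cmp b (un a * q)) := by
  rw [ph_eq, gq, add_mul, cmp_add, ← cmp_smul, ← cmp_smul, smul_mul_assoc]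
  congr 3
  exact Quaternion.coe_mul_eq_smul _ _

lemma deriv_ph (a b : Fin 3) (q : ℍ[ℝ]) :
    HasDerivAt (fun t => ph b (gq a t * q)) (cmp b (un a * q)) 0 := by
  have h2 : (0 : ℝ) < Real.sqrt 2 := Real.sqrt_pos.mpr (by norm_num)
  have h0 : HasDerivAt (fun t : ℝ => t / Real.sqrt 2) (1 / Real.sqrt 2) 0 :=
    (hasDerivAt_id (0 : ℝ)).div_const _
  have h3 := ((h0.cos.mul_const (cmp b q)).add (h0.sin.mul_const (cmp b (un a * q)))).const_mul
    (Real.sqrt 2)
  have e : Real.sqrt 2 * (-Real.sin (0 / Real.sqrt 2) * (1 / Real.sqrt 2) * cmp b q +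
      Real.cos (0 / Real.sqrt 2) * (1 / Real.sqrt 2) * cmp b (un a * q)) =
      cmp b (un a * q) := by
    rw [zero_div, Real.sin_zero, Real.cos_zero]
    field_simp
    ring
  rw [e] at h3
  refine h3.congr_of_eventuallyEq (Eventually.of_forall fun t => ?_)
  exact ph_gq a b t q

theorem tdp : S_DP := by
  refine ⟨fun a b q => cmp b (un a * (q - 1)), fun a b => ?_, fun a b q => ?_, fun b q => ?_, ?_⟩
  · exact (continuous_cmp b).comp (continuous_const.mul (continuous_id.sub continuous_const))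
  · refine (abs_cmp_le b _).trans ?_
    rw [norm_mul, norm_un, one_mul]
  · rw [ph_eq, abs_mul, abs_of_nonneg (Real.sqrt_nonneg 2), ← cmp_sub_one]
    have h1 := abs_cmp_le b (q - 1)
    have h2 : Real.sqrt 2 ≤ 2 := by
      rw [Real.sqrt_le_left (by norm_num)]
      norm_num
    exact mul_le_mul h2 h1 (abs_nonneg _) (by norm_num)
  · intro Λ _ _ l l' a b σ
    by_cases h : l = l'
    · subst h
      rw [if_pos rfl]
      have h1 : ∀ t, ph b ((sh l a t σ l : SU) : ℍ[ℝ]) = ph b (gq a t * ((σ l : SU) : ℍ[ℝ])) := by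
        intro t
        rw [sh, Function.update_self, ← coe_gm]
        rfl
      have h2 : cmp b (un a * ((σ l : SU) : ℍ[ℝ])) =
          (if a = b then 1 else 0) + cmp b (un a * (((σ l : SU) : ℍ[ℝ]) - 1)) := by
        rw [← cmp_un, ← cmp_add, mul_sub, mul_one, add_sub_cancel]
      rw [← h2]
      exact (deriv_ph a b _).congr_of_eventuallyEq (Eventually.of_forall h1)
    · rw [if_neg h]
      have h1 : ∀ t, ph b ((sh l a t σ l' : SU) : ℍ[ℝ]) = ph b ((σ l' : SU) : ℍ[ℝ]) := by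
        intro t
        rw [sh, Function.update_of_ne (fun h' => h h'.symm)]
      exact (hasDerivAt_const (0 : ℝ) (ph b ((σ l' : SU) : ℍ[ℝ]))).congr_of_eventuallyEq
        (Eventually.of_forall h1)

end

end Pool.Agent.H658.AF
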